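import Mathlib

set_option autoImplicit false
open MeasureTheory Set Filter Finset
open scoped Topology Real

namespace Pool.Agent.H327R2.Lac

/-- span of the functions `cos (j x)`, `j ≤ d` -/
def CS (d : ℕ) : Submodule ℝ (ℝ → ℝ) :=
  Submodule.span ℝ (Set.range fun j : Fin (d + 1) => fun x : ℝ => Real.cos (((j : ℕ) : ℝ) * x))

lemma cos_mem_CS {d j : ℕ} (h : j ≤ d) : (fun x : ℝ => Real.cos ((j : ℝ) * x)) ∈ CS d :=
  Submodule.subset_span ⟨⟨j, by omega⟩, by simp⟩

lemma CS_mono {d e : ℕ} (h : d ≤ e) : CS d ≤ CS e := by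
  refine Submodule.span_le.2 ?_
  rintro _ ⟨j, rfl⟩
  exact cos_mem_CS (by omega)

lemma cos_mul_cos_mem (a b : ℕ) :
    (fun x : ℝ => Real.cos ((a : ℝ) * x)) * (fun x : ℝ => Real.cos ((b : ℝ) * x)) ∈ CS (a + b) := by
  have key : ∀ a b : ℕ, b ≤ a →
      (fun x : ℝ => Real.cos ((a : ℝ) * x)) * (fun x : ℝ => Real.cos ((b : ℝ) * x)) ∈ CS (a + b) := by
    intro a b hab
    have : (fun x : ℝ => Real.cos ((a : ℝ) * x)) * (fun x : ℝ => Real.cos ((b : ℝ) * x))
        = (1 / 2 : ℝ) • (fun x : ℝ => Real.cos (((a + b : ℕ) : ℝ) * x))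
          + (1 / 2 : ℝ) • (fun x : ℝ => Real.cos (((a - b : ℕ) : ℝ) * x)) := by
      ext x
      simp only [Pi.mul_apply, Pi.add_apply, Pi.smul_apply, smul_eq_mul]
      rw [Nat.cast_sub hab, Nat.cast_add, add_mul, sub_mul, Real.cos_add, Real.cos_sub]
      ring
    rw [this]
    exact Submodule.add_mem _ (Submodule.smul_mem _ _ (cos_mem_CS le_rfl))
      (Submodule.smul_mem _ _ (cos_mem_CS (by omega)))
  rcases le_total b a with h | h
  · exact key a b h
  · rw [mul_comm, add_comm]; exact key b a h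

lemma CS_mul {d e : ℕ} {f g : ℝ → ℝ} (hf : f ∈ CS d) (hg : g ∈ CS e) : f * g ∈ CS (d + e) := by
  induction hf using Submodule.span_induction with
  | mem f hf =>
    obtain ⟨j, rfl⟩ := hf
    induction hg using Submodule.span_induction with
    | mem g hg =>
      obtain ⟨i, rfl⟩ := hg
      exact CS_mono (by omega) (cos_mul_cos_mem j i)
    | zero => simp
    | add x y _ _ hx hy => rw [mul_add]; exact Submodule.add_mem _ hx hy
    | smul a x _ hx => rw [mul_smul_comm]; exact Submodule.smul_mem _ _ hx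
  | zero => simp
  | add x y _ _ hx hy => rw [add_mul]; exact Submodule.add_mem _ hx hy
  | smul a x _ hx => rw [smul_mul_assoc]; exact Submodule.smul_mem _ _ hx

lemma CS_cont {d : ℕ} {f : ℝ → ℝ} (hf : f ∈ CS d) : Continuous f := by
  induction hf using Submodule.span_induction with
  | mem f hf =>
    obtain ⟨j, rfl⟩ := hf
    fun_prop
  | zero => exact continuous_const
  | add x y _ _ hx hy => exact hx.add hy
  | smul a x _ hx => exact hx.const_smul a

lemma int_cos {N : ℕ} (h : N ≠ 0) : ∫ x in (0 : ℝ)..(2 * π), Real.cos ((N : ℝ) * x) = 0 := by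
  rw [intervalIntegral.integral_comp_mul_left (fun x => Real.cos x) (by exact_mod_cast h)]
  rw [integral_cos]
  simp only [mul_zero, Real.sin_zero, sub_zero, smul_eq_mul]
  have : (N : ℝ) * (2 * π) = ((2 * N : ℕ) : ℝ) * π := by push_cast; ring
  rw [this, Real.sin_nat_mul_pi]
  simp

lemma int_cos_mul_cos {j N : ℕ} (h : j < N) :
    ∫ x in (0 : ℝ)..(2 * π), Real.cos ((j : ℝ) * x) * Real.cos ((N : ℝ) * x) = 0 := by
  have : ∀ x : ℝ, Real.cos ((j : ℝ) * x) * Real.cos ((N : ℝ) * x)
      = (1 / 2 : ℝ) * Real.cos (((N + j : ℕ) : ℝ) * x)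
        + (1 / 2 : ℝ) * Real.cos (((N - j : ℕ) : ℝ) * x) := by
    intro x
    rw [Nat.cast_sub h.le, Nat.cast_add, add_mul, sub_mul, Real.cos_add, Real.cos_sub]
    ring
  simp_rw [this]
  rw [intervalIntegral.integral_add, intervalIntegral.integral_const_mul,
    intervalIntegral.integral_const_mul, int_cos (by omega), int_cos (by omega)]
  · simp
  · apply Continuous.intervalIntegrable; fun_prop
  · apply Continuous.intervalIntegrable; fun_prop

lemma int_CS_mul_cos {d N : ℕ} (h : d < N) {f : ℝ → ℝ} (hf : f ∈ CS d) :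
    ∫ x in (0 : ℝ)..(2 * π), f x * Real.cos ((N : ℝ) * x) = 0 := by
  induction hf using Submodule.span_induction with
  | mem f hf =>
    obtain ⟨j, rfl⟩ := hf
    exact int_cos_mul_cos (by omega)
  | zero => simp
  | add x y hx' hy' hx hy =>
    simp only [Pi.add_apply, add_mul]
    have h1 := CS_cont hx'
    have h2 := CS_cont hy'
    rw [intervalIntegral.integral_add, hx, hy, add_zero]
    · apply Continuous.intervalIntegrable; fun_prop
    · apply Continuous.intervalIntegrable; fun_prop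
  | smul a x _ hx =>
    simp only [Pi.smul_apply, smul_eq_mul, mul_assoc]
    rw [intervalIntegral.integral_const_mul, hx, mul_zero]

end Pool.Agent.H327R2.Lac
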