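import Pool.Agent.H327R2.Lac1

set_option autoImplicit false
open MeasureTheory Set Filter Finset
open scoped Topology Real

namespace Pool.Agent.H327R2.Lac

lemma int_cos_sq {N : ℕ} (h : N ≠ 0) :
    ∫ x in (0 : ℝ)..(2 * π), Real.cos ((N : ℝ) * x) ^ 2 = π := by
  have : ∀ x : ℝ, Real.cos ((N : ℝ) * x) ^ 2
      = (1 / 2 : ℝ) + (1 / 2 : ℝ) * Real.cos (((2 * N : ℕ) : ℝ) * x) := by
    intro x
    have h2 : ((2 * N : ℕ) : ℝ) * x = 2 * ((N : ℝ) * x) := by push_cast; ring
    rw [h2, Real.cos_two_mul]; ring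
  simp_rw [this]
  rw [intervalIntegral.integral_add, intervalIntegral.integral_const_mul, int_cos (by omega)]
  · simp; ring
  · apply Continuous.intervalIntegrable; fun_prop
  · apply Continuous.intervalIntegrable; fun_prop

/-- partial trigonometric sum over a finite set of indices -/
noncomputable def P (n : ℕ → ℕ) (T : Finset ℕ) (x : ℝ) : ℝ := ∑ k ∈ T, Real.cos ((n k : ℝ) * x)

lemma P_cont (n : ℕ → ℕ) (T : Finset ℕ) : Continuous (P n T) := by
  unfold P; fun_prop

lemma P_mem {n : ℕ → ℕ} {T : Finset ℕ} {d : ℕ} (h : ∀ k ∈ T, n k ≤ d) : P n T ∈ CS d := by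
  have : P n T = ∑ k ∈ T, fun x : ℝ => Real.cos ((n k : ℝ) * x) := by
    ext x; simp [P, Finset.sum_apply]
  rw [this]
  exact Submodule.sum_mem _ fun k hk => cos_mem_CS (h k hk)

lemma L2_L4 (n : ℕ → ℕ) (hn : ∀ k, 0 < n k) (T : Finset ℕ)
    (hT : ∀ i ∈ T, ∀ j ∈ T, i < j → 4 * n i ≤ n j) :
    (∫ x in (0 : ℝ)..(2 * π), P n T x ^ 2 = π * T.card) ∧
    (∫ x in (0 : ℝ)..(2 * π), P n T x ^ 4 ≤ 3 * π * (T.card : ℝ) ^ 2) := by
  induction T using Finset.induction_on_max with
  | empty => simp [P]
  | insert a s hs ih =>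
    have ha : a ∉ s := fun h => lt_irrefl _ (hs a h)
    obtain ⟨ih2, ih4⟩ := ih (fun i hi j hj hij => hT i (Finset.mem_insert_of_mem hi) j
      (Finset.mem_insert_of_mem hj) hij)
    set N := n a with hN
    have hNpos : 0 < N := hn a
    have hP : P n s ∈ CS (N / 4) := by
      refine P_mem fun k hk => ?_
      have := hT k (Finset.mem_insert_of_mem hk) a (Finset.mem_insert_self _ _) (hs k hk)
      omega
    have hP2 : P n s ^ 2 ∈ CS (N / 4 + N / 4) := by rw [pow_two]; exact CS_mul hP hP
    have hP3 : P n s ^ 3 ∈ CS (N / 4 + N / 4 + N / 4) := by rw [pow_succ]; exact CS_mul hP2 hP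
    have hc := P_cont n s
    have e1 : ∀ x, P n (insert a s) x = Real.cos ((N : ℝ) * x) + P n s x := by
      intro x; simp [P, Finset.sum_insert ha, hN]
    have i1 : ∫ x in (0 : ℝ)..(2 * π), P n s x * Real.cos ((N : ℝ) * x) = 0 :=
      int_CS_mul_cos (by omega) hP
    have i1' : ∫ x in (0 : ℝ)..(2 * π), P n s x * Real.cos (((3 * N : ℕ) : ℝ) * x) = 0 :=
      int_CS_mul_cos (by omega) hP
    have i2 : ∫ x in (0 : ℝ)..(2 * π), P n s x ^ 2 * Real.cos (((2 * N : ℕ) : ℝ) * x) = 0 :=
      int_CS_mul_cos (by omega) hP2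
    have i3 : ∫ x in (0 : ℝ)..(2 * π), P n s x ^ 3 * Real.cos ((N : ℝ) * x) = 0 :=
      int_CS_mul_cos (by omega) hP3
    have ic2 := int_cos_sq (N := N) (by omega)
    constructor
    · have e2 : ∀ x, P n (insert a s) x ^ 2 = Real.cos ((N : ℝ) * x) ^ 2
          + 2 * (P n s x * Real.cos ((N : ℝ) * x)) + P n s x ^ 2 := by
        intro x; rw [e1]; ring
      simp_rw [e2]
      rw [intervalIntegral.integral_add, intervalIntegral.integral_add,
        intervalIntegral.integral_const_mul, i1, ih2, ic2, Finset.card_insert_of_notMem ha]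
      · push_cast; ring
      all_goals apply Continuous.intervalIntegrable; fun_prop
    · have e4 : ∀ x, P n (insert a s) x ^ 4 = Real.cos ((N : ℝ) * x) ^ 4
          + (3 * (P n s x * Real.cos ((N : ℝ) * x))
          + (P n s x * Real.cos (((3 * N : ℕ) : ℝ) * x))
          + 3 * (P n s x ^ 2 * Real.cos (((2 * N : ℕ) : ℝ) * x)) + 3 * P n s x ^ 2
          + 4 * (P n s x ^ 3 * Real.cos ((N : ℝ) * x)) + P n s x ^ 4) := by
        intro x; rw [e1]
        have h2 : ((2 * N : ℕ) : ℝ) * x = 2 * ((N : ℝ) * x) := by push_cast; ring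
        have h3 : ((3 * N : ℕ) : ℝ) * x = 3 * ((N : ℝ) * x) := by push_cast; ring
        rw [h2, h3, Real.cos_two_mul, Real.cos_three_mul]; ring
      simp_rw [e4]
      rw [intervalIntegral.integral_add, intervalIntegral.integral_add,
        intervalIntegral.integral_add, intervalIntegral.integral_add,
        intervalIntegral.integral_add, intervalIntegral.integral_add,
        intervalIntegral.integral_const_mul, intervalIntegral.integral_const_mul,
        intervalIntegral.integral_const_mul, intervalIntegral.integral_const_mul,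
        i1, i1', i2, i3, ih2, Finset.card_insert_of_notMem ha]
      · have h4 : ∫ x in (0 : ℝ)..(2 * π), Real.cos ((N : ℝ) * x) ^ 4 ≤ 2 * π := by
          have : ∫ x in (0 : ℝ)..(2 * π), Real.cos ((N : ℝ) * x) ^ 4
              ≤ ∫ x in (0 : ℝ)..(2 * π), (1 : ℝ) := by
            apply intervalIntegral.integral_mono_on (by positivity)
            · apply Continuous.intervalIntegrable; fun_prop
            · apply Continuous.intervalIntegrable; fun_prop
            · intro x _
              have h1 := Real.cos_sq_le_one ((N : ℝ) * x)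
              have h2 : Real.cos ((N : ℝ) * x) ^ 4 = (Real.cos ((N : ℝ) * x) ^ 2) ^ 2 := by ring
              rw [h2]
              nlinarith [sq_nonneg (Real.cos ((N : ℝ) * x))]
          simpa using this
        push_cast
        have hpi := Real.pi_pos
        nlinarith [h4, ih4, hpi, mul_nonneg hpi.le (Nat.cast_nonneg (α := ℝ) s.card)]
      all_goals apply Continuous.intervalIntegrable; fun_prop

end Pool.Agent.H327R2.Lac
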