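import Pool.Agent.H327R2.Lac2

set_option autoImplicit false
open MeasureTheory Set Filter Finset
open scoped Topology Real

namespace Pool.Agent.H327R2.Lac

lemma growth {n : ℕ → ℕ} {q : ℝ} (hq : 1 < q) (h : ∀ k, q * (n k : ℝ) ≤ (n (k + 1) : ℝ))
    (k d : ℕ) : q ^ d * (n k : ℝ) ≤ (n (k + d) : ℝ) := by
  induction d with
  | zero => simp
  | succ d ih =>
    calc q ^ (d + 1) * (n k : ℝ) = q * (q ^ d * (n k : ℝ)) := by ring
      _ ≤ q * (n (k + d) : ℝ) := by gcongr
      _ ≤ (n (k + (d + 1)) : ℝ) := h (k + d)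

lemma strictMono_n {n : ℕ → ℕ} {q : ℝ} (hq : 1 < q) (hn : ∀ k, 0 < n k)
    (h : ∀ k, q * (n k : ℝ) ≤ (n (k + 1) : ℝ)) : StrictMono n := by
  refine strictMono_nat_of_lt_succ fun k => ?_
  have h1 : (0 : ℝ) < n k := by exact_mod_cast hn k
  have : (n k : ℝ) < n (k + 1) := by nlinarith [h k]
  exact_mod_cast this

lemma L4gen {n : ℕ → ℕ} {q : ℝ} (hq : 1 < q) (hn : ∀ k, 0 < n k)
    (h : ∀ k, q * (n k : ℝ) ≤ (n (k + 1) : ℝ)) {r : ℕ} (hr : 0 < r) (hr4 : 4 ≤ q ^ r) (m : ℕ) :
    ∫ x in (0 : ℝ)..(2 * π), P n (range m) x ^ 4 ≤ 3 * π * (r : ℝ) ^ 4 * (m : ℝ) ^ 2 := by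
  set T : ℕ → Finset ℕ := fun i => (range m).filter (fun k => k % r = i) with hT
  have hsplit : ∀ x, P n (range m) x = ∑ i ∈ range r, P n (T i) x := by
    intro x
    unfold P
    exact (Finset.sum_fiberwise_of_maps_to (fun k _ => Finset.mem_range.2 (Nat.mod_lt k hr)) _).symm
  have hpt : ∀ x, P n (range m) x ^ 4 ≤ (r : ℝ) ^ 3 * ∑ i ∈ range r, P n (T i) x ^ 4 := by
    intro x
    rw [hsplit]
    have h1 := sq_sum_le_card_mul_sum_sq (s := range r) (f := fun i => P n (T i) x)
    have h2 := sq_sum_le_card_mul_sum_sq (s := range r) (f := fun i => P n (T i) x ^ 2)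
    simp only [Finset.card_range] at h1 h2
    have h0 : (0 : ℝ) ≤ (∑ i ∈ range r, P n (T i) x) ^ 2 := sq_nonneg _
    have hrr : (0 : ℝ) ≤ r := Nat.cast_nonneg r
    calc (∑ i ∈ range r, P n (T i) x) ^ 4 = ((∑ i ∈ range r, P n (T i) x) ^ 2) ^ 2 := by ring
      _ ≤ (r * ∑ i ∈ range r, P n (T i) x ^ 2) ^ 2 := by gcongr
      _ = (r : ℝ) ^ 2 * (∑ i ∈ range r, P n (T i) x ^ 2) ^ 2 := by ring
      _ ≤ (r : ℝ) ^ 2 * (r * ∑ i ∈ range r, (P n (T i) x ^ 2) ^ 2) := by gcongr
      _ = (r : ℝ) ^ 3 * ∑ i ∈ range r, P n (T i) x ^ 4 := by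
        have e : ∑ i ∈ range r, (P n (T i) x ^ 2) ^ 2 = ∑ i ∈ range r, P n (T i) x ^ 4 :=
          Finset.sum_congr rfl fun i _ => by ring
        rw [e]; ring
  have hTi : ∀ i ∈ range r, ∫ x in (0 : ℝ)..(2 * π), P n (T i) x ^ 4 ≤ 3 * π * (m : ℝ) ^ 2 := by
    intro i _
    have h1 : ∀ a ∈ T i, ∀ b ∈ T i, a < b → 4 * n a ≤ n b := by
      intro a ha b hb hab
      simp only [hT, Finset.mem_filter] at ha hb
      have hd : r ≤ b - a := by
        have : r ∣ b - a := (Nat.modEq_iff_dvd' hab.le).1 (ha.2.trans hb.2.symm)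
        exact Nat.le_of_dvd (by omega) this
      have hg := growth hq h a (b - a)
      rw [Nat.add_sub_cancel' hab.le] at hg
      have hn0 : (0 : ℝ) ≤ n a := Nat.cast_nonneg _
      have hqr : (4 : ℝ) ≤ q ^ (b - a) := hr4.trans (pow_le_pow_right₀ hq.le hd)
      have : (4 : ℝ) * n a ≤ n b := by nlinarith
      exact_mod_cast this
    refine ((L2_L4 n hn (T i) h1).2).trans ?_
    have hc : ((T i).card : ℝ) ≤ m := by
      have : (T i).card ≤ (range m).card := Finset.card_filter_le _ _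
      simpa using this
    have hc0 : (0 : ℝ) ≤ ((T i).card : ℝ) := Nat.cast_nonneg _
    have hpi := Real.pi_pos
    gcongr
  calc ∫ x in (0 : ℝ)..(2 * π), P n (range m) x ^ 4
      ≤ ∫ x in (0 : ℝ)..(2 * π), (r : ℝ) ^ 3 * ∑ i ∈ range r, P n (T i) x ^ 4 := by
        apply intervalIntegral.integral_mono_on (by positivity)
        · apply Continuous.intervalIntegrable; exact (P_cont n _).pow 4
        · apply Continuous.intervalIntegrable
          refine continuous_const.mul (continuous_finsetSum _ fun i _ => (P_cont n _).pow 4)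
        · intro x _; exact hpt x
    _ = (r : ℝ) ^ 3 * ∑ i ∈ range r, ∫ x in (0 : ℝ)..(2 * π), P n (T i) x ^ 4 := by
        rw [intervalIntegral.integral_const_mul, intervalIntegral.integral_finsetSum]
        intro i _
        apply Continuous.intervalIntegrable; exact (P_cont n _).pow 4
    _ ≤ (r : ℝ) ^ 3 * ∑ i ∈ range r, 3 * π * (m : ℝ) ^ 2 := by
        gcongr with i hi
        exact hTi i hi
    _ = 3 * π * (r : ℝ) ^ 4 * (m : ℝ) ^ 2 := by
        simp; ring

/-- the cosine coefficients of a set -/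
noncomputable def c (A : Set ℝ) (l : ℕ) : ℝ := ∫ x in A, Real.cos ((l : ℝ) * x)

lemma int_cos_orth {a b : ℕ} (ha : a ≠ 0) (hb : b ≠ 0) :
    ∫ x in (0 : ℝ)..(2 * π), Real.cos ((a : ℝ) * x) * Real.cos ((b : ℝ) * x)
      = if a = b then π else 0 := by
  split_ifs with h
  · subst h
    simp_rw [← pow_two]
    exact int_cos_sq ha
  · rcases lt_or_gt_of_ne h with h | h
    · exact int_cos_mul_cos h
    · simp_rw [mul_comm (Real.cos ((a : ℝ) * _))]
      exact int_cos_mul_cos h

lemma bessel {A : Set ℝ} (hA : MeasurableSet A) (hA2 : A ⊆ Set.Ioc 0 (2 * π)) (F : Finset ℕ)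
    (hF : ∀ l ∈ F, l ≠ 0) : ∑ l ∈ F, c A l ^ 2 ≤ π * volume.real A := by
  have hfin : volume A ≠ ⊤ := ((measure_mono hA2).trans_lt measure_Ioc_lt_top).ne
  have : IsFiniteMeasure (volume.restrict A) := ⟨by simpa using hfin.lt_top⟩
  have h2pi : (0 : ℝ) ≤ 2 * π := by positivity
  set g : ℝ → ℝ := fun x => ∑ l ∈ F, c A l * Real.cos ((l : ℝ) * x) with hg
  have hgc : Continuous g := by fun_prop
  have hint : ∀ f : ℝ → ℝ, Continuous f → IntegrableOn f (Set.Ioc 0 (2 * π)) := fun f hf =>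
    (hf.integrableOn_Icc).mono_set Set.Ioc_subset_Icc_self
  have hintA : ∀ f : ℝ → ℝ, Continuous f → IntegrableOn f A := fun f hf =>
    (hint f hf).mono_set hA2
  have hgA : ∫ x in A, g x = ∑ l ∈ F, c A l ^ 2 := by
    simp only [hg]
    rw [integral_finsetSum]
    · refine Finset.sum_congr rfl fun l _ => ?_
      rw [integral_const_mul, pow_two]; rfl
    · intro l _; exact hintA _ (by fun_prop)
  have hg2 : ∫ x in A, g x ^ 2 ≤ π * ∑ l ∈ F, c A l ^ 2 := by
    calc ∫ x in A, g x ^ 2 ≤ ∫ x in Set.Ioc 0 (2 * π), g x ^ 2 := by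
          apply setIntegral_mono_set (hint _ (hgc.pow 2))
          · exact Filter.Eventually.of_forall fun x => sq_nonneg _
          · exact hA2.eventuallyLE
      _ = ∫ x in (0 : ℝ)..(2 * π), g x ^ 2 := (intervalIntegral.integral_of_le h2pi).symm
      _ = ∫ x in (0 : ℝ)..(2 * π), ∑ l ∈ F, ∑ l' ∈ F,
            (c A l * c A l') * (Real.cos ((l : ℝ) * x) * Real.cos ((l' : ℝ) * x)) := by
          congr 1; ext x
          simp only [hg]
          rw [pow_two, Finset.sum_mul_sum]
          refine Finset.sum_congr rfl fun l _ => Finset.sum_congr rfl fun l' _ => by ring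
      _ = ∑ l ∈ F, ∑ l' ∈ F, (c A l * c A l') * (if l = l' then π else 0) := by
          rw [intervalIntegral.integral_finsetSum]
          · refine Finset.sum_congr rfl fun l hl => ?_
            rw [intervalIntegral.integral_finsetSum]
            · refine Finset.sum_congr rfl fun l' hl' => ?_
              rw [intervalIntegral.integral_const_mul, int_cos_orth (hF l hl) (hF l' hl')]
            · intro l' _; apply Continuous.intervalIntegrable; fun_prop
          · intro l _; apply Continuous.intervalIntegrable; fun_prop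
      _ = π * ∑ l ∈ F, c A l ^ 2 := by
          rw [Finset.mul_sum]
          refine Finset.sum_congr rfl fun l hl => ?_
          simp [Finset.sum_ite_eq, hl]
          ring
  have h0 : 0 ≤ ∫ x in A, (1 - (1 / π) * g x) ^ 2 := integral_nonneg fun x => sq_nonneg _
  have hexp : ∫ x in A, (1 - (1 / π) * g x) ^ 2
      = volume.real A - (2 / π) * (∫ x in A, g x) + (1 / π) ^ 2 * (∫ x in A, g x ^ 2) := by
    have : ∀ x, (1 - (1 / π) * g x) ^ 2 = 1 - (2 / π) * g x + (1 / π) ^ 2 * g x ^ 2 := by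
      intro x; ring
    simp_rw [this]
    rw [integral_add, integral_sub, integral_const_mul, integral_const_mul]
    · simp
    · exact hintA _ continuous_const
    · exact hintA _ (by fun_prop)
    · exact hintA _ (by fun_prop)
    · exact hintA _ (by fun_prop)
  rw [hexp, hgA] at h0
  have hpi := Real.pi_pos
  set s := ∑ l ∈ F, c A l ^ 2 with hs
  have h3 : (1 / π) ^ 2 * ∫ x in A, g x ^ 2 ≤ (1 / π) ^ 2 * (π * s) := by gcongr
  have h4 : (1 / π) ^ 2 * (π * s) = s / π := by field_simp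
  have h5 : 0 ≤ volume.real A - s / π := by
    have : (2 / π) * s = 2 * (s / π) := by ring
    rw [this] at h0
    linarith
  have h6 : s / π ≤ volume.real A := by linarith
  rw [div_le_iff₀ hpi] at h6
  linarith

lemma tail {A : Set ℝ} (hA : MeasurableSet A) (hA2 : A ⊆ Set.Ioc 0 (2 * π)) {η : ℝ} (hη : 0 < η) :
    ∃ L : ℕ, 0 < L ∧ ∀ F : Finset ℕ, (∀ l ∈ F, L ≤ l) → ∑ l ∈ F, c A l ^ 2 ≤ η := by
  have hsum : Summable (fun l : ℕ => c A (l + 1) ^ 2) := by
    refine summable_of_sum_le (fun l => sq_nonneg _) (c := π * volume.real A) fun u => ?_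
    have := bessel hA hA2 (u.map ⟨fun l => l + 1, fun a b h => by simpa using h⟩) (by
      intro l hl; simp only [Finset.mem_map, Function.Embedding.coeFn_mk] at hl
      obtain ⟨a, _, rfl⟩ := hl; omega)
    rw [Finset.sum_map] at this
    exact this
  have hsum' : Summable (fun l : ℕ => c A l ^ 2) := (summable_nat_add_iff 1).1 hsum
  rw [summable_iff_vanishing_norm] at hsum'
  obtain ⟨s, hs⟩ := hsum' η hη
  refine ⟨s.sup id + 1, by omega, fun F hF => ?_⟩
  have := hs F (by
    rw [Finset.disjoint_left]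
    intro l hl hls
    have h1 := hF l hl
    have h2 : id l ≤ s.sup id := Finset.le_sup hls
    simp only [id] at h2
    omega)
  exact (le_abs_self _).trans (by simpa using this.le)

end Pool.Agent.H327R2.Lac
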