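import Pool.Agent.H327R2.Lac3

set_option autoImplicit false
open MeasureTheory Set Filter Finset
open scoped Topology Real

namespace Pool.Agent.H327R2.Lac

lemma sum_img {A : Set ℝ} {η : ℝ} (hη : 0 ≤ η) {L : ℕ}
    (hL : ∀ F : Finset ℕ, (∀ l ∈ F, L ≤ l) → ∑ l ∈ F, c A l ^ 2 ≤ η) {ι : Type} (s : Finset ι)
    (φ ρ : ι → ℕ) {r : ℕ} (hr : ∀ p ∈ s, ρ p < r) (hφ : ∀ p ∈ s, L ≤ φ p)
    (hinj : Set.InjOn (fun p => (φ p, ρ p)) (s : Set ι)) :
    ∑ p ∈ s, c A (φ p) ^ 2 ≤ r * η := by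
  classical
  have h1 : ∑ p ∈ s, c A (φ p) ^ 2
      = ∑ y ∈ s.image (fun p => (φ p, ρ p)), c A y.1 ^ 2 := by
    rw [Finset.sum_image hinj]
  rw [h1]
  have hsub : s.image (fun p => (φ p, ρ p)) ⊆ (s.image φ) ×ˢ (range r) := by
    intro y hy
    simp only [Finset.mem_image] at hy
    obtain ⟨p, hp, rfl⟩ := hy
    simp only [Finset.mem_product, Finset.mem_image, Finset.mem_range]
    exact ⟨⟨p, hp, rfl⟩, hr p hp⟩
  calc ∑ y ∈ s.image (fun p => (φ p, ρ p)), c A y.1 ^ 2
      ≤ ∑ y ∈ (s.image φ) ×ˢ (range r), c A y.1 ^ 2 :=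
        Finset.sum_le_sum_of_subset_of_nonneg hsub fun y _ _ => sq_nonneg _
    _ = r * ∑ l ∈ s.image φ, c A l ^ 2 := by
        rw [Finset.sum_product]
        simp [Finset.mul_sum]
    _ ≤ r * η := by
        gcongr
        refine hL _ fun l hl => ?_
        simp only [Finset.mem_image] at hl
        obtain ⟨p, hp, rfl⟩ := hl
        exact hφ p hp

lemma abs_sum_le {A : Set ℝ} {ι : Type} (s : Finset ι) (φ : ι → ℕ) {X Y : ℝ} (hY : 0 ≤ Y)
    (h : ∑ p ∈ s, c A (φ p) ^ 2 ≤ X) (hXY : s.card * X ≤ Y ^ 2) :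
    ∑ p ∈ s, |c A (φ p)| ≤ Y := by
  have h1 := sq_sum_le_card_mul_sum_sq (s := s) (f := fun p => |c A (φ p)|)
  simp only [sq_abs] at h1
  have h2 : (∑ p ∈ s, |c A (φ p)|) ^ 2 ≤ Y ^ 2 := by
    refine h1.trans (le_trans ?_ hXY)
    gcongr
  exact (abs_le_of_sq_le_sq' h2 hY).2

/-- indices of pairs `k < j < m` -/
def prs (m : ℕ) : Finset (Σ _ : ℕ, ℕ) := (range m).sigma (fun j => range j)

lemma card_prs (m : ℕ) : ((prs m).card : ℝ) ≤ (m : ℝ) ^ 2 := by
  have : (prs m).card ≤ m * m := by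
    unfold prs
    rw [Finset.card_sigma]
    calc ∑ a ∈ range m, (range a).card ≤ ∑ a ∈ range m, m := by
          refine Finset.sum_le_sum fun a ha => ?_
          simpa using (Finset.mem_range.1 ha).le
      _ = m * m := by simp
  calc ((prs m).card : ℝ) ≤ ((m * m : ℕ) : ℝ) := by exact_mod_cast this
    _ = (m : ℝ) ^ 2 := by push_cast; ring

section
variable {A : Set ℝ} (hA : MeasurableSet A) (hA2 : A ⊆ Set.Ioc 0 (2 * π))
include hA hA2

lemma intOn {f : ℝ → ℝ} (hf : Continuous f) : IntegrableOn f A :=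
  ((hf.integrableOn_Icc).mono_set Set.Ioc_subset_Icc_self).mono_set hA2

lemma int_P (n : ℕ → ℕ) (m : ℕ) : ∫ x in A, P n (range m) x = ∑ k ∈ range m, c A (n k) := by
  unfold P
  rw [integral_finsetSum]
  · rfl
  · intro k _; exact intOn hA hA2 (by fun_prop)

lemma int_P_mul_cos (n : ℕ → ℕ) (m N : ℕ) (h : ∀ k < m, n k ≤ N) :
    ∫ x in A, P n (range m) x * Real.cos ((N : ℝ) * x)
      = ∑ k ∈ range m, (c A (N + n k) + c A (N - n k)) / 2 := by
  have : ∀ x, P n (range m) x * Real.cos ((N : ℝ) * x)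
      = ∑ k ∈ range m, ((Real.cos (((N + n k : ℕ) : ℝ) * x)
        + Real.cos (((N - n k : ℕ) : ℝ) * x)) / 2) := by
    intro x
    unfold P
    rw [Finset.sum_mul]
    refine Finset.sum_congr rfl fun k hk => ?_
    rw [Nat.cast_sub (h k (Finset.mem_range.1 hk)), Nat.cast_add, add_mul, sub_mul, Real.cos_add,
      Real.cos_sub]
    ring
  simp_rw [this]
  rw [integral_finsetSum]
  · refine Finset.sum_congr rfl fun k _ => ?_
    rw [integral_div, integral_add]
    · rfl
    · exact intOn hA hA2 (by fun_prop)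
    · exact intOn hA hA2 (by fun_prop)
  · intro k _; exact intOn hA hA2 (by fun_prop)

lemma int_cos_sq_A (N : ℕ) :
    ∫ x in A, Real.cos ((N : ℝ) * x) ^ 2 = (volume.real A + c A (2 * N)) / 2 := by
  have : ∀ x : ℝ, Real.cos ((N : ℝ) * x) ^ 2
      = (1 / 2 : ℝ) + (1 / 2 : ℝ) * Real.cos (((2 * N : ℕ) : ℝ) * x) := by
    intro x
    have h2 : ((2 * N : ℕ) : ℝ) * x = 2 * ((N : ℝ) * x) := by push_cast; ring
    rw [h2, Real.cos_two_mul]; ring
  simp_rw [this]
  rw [integral_add, integral_const_mul]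
  · simp only [integral_const, smul_eq_mul, measureReal_restrict_apply_univ]
    unfold c
    ring
  · exact intOn hA hA2 (by fun_prop)
  · exact intOn hA hA2 (by fun_prop)

lemma int_P_sq (n : ℕ → ℕ) (hmono : StrictMono n) (m : ℕ) :
    (m : ℝ) * volume.real A / 2 - (1 / 2) * ∑ k ∈ range m, |c A (2 * n k)|
      - ∑ j ∈ range m, ∑ k ∈ range j, |c A (n j + n k)|
      - ∑ j ∈ range m, ∑ k ∈ range j, |c A (n j - n k)| ≤ ∫ x in A, P n (range m) x ^ 2 := by
  induction m with
  | zero => simp [P]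
  | succ m ih =>
    have hc := P_cont n (range m)
    have e2 : ∀ x, P n (range (m + 1)) x ^ 2 = P n (range m) x ^ 2
        + 2 * (P n (range m) x * Real.cos ((n m : ℝ) * x)) + Real.cos ((n m : ℝ) * x) ^ 2 := by
      intro x; unfold P; rw [Finset.sum_range_succ]; ring
    simp_rw [e2]
    rw [integral_add, integral_add, integral_const_mul,
      int_P_mul_cos hA hA2 n m (n m) (fun k hk => (hmono hk).le), int_cos_sq_A hA hA2]
    · rw [Finset.sum_range_succ, Finset.sum_range_succ (n := m), Finset.sum_range_succ (n := m)]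
      have h1 : ∀ k ∈ range m, -(|c A (n m + n k)| + |c A (n m - n k)|)
          ≤ 2 * ((c A (n m + n k) + c A (n m - n k)) / 2) := by
        intro k _
        have := neg_abs_le (c A (n m + n k))
        have := neg_abs_le (c A (n m - n k))
        linarith
      have h2 := Finset.sum_le_sum h1
      rw [← Finset.mul_sum, Finset.sum_neg_distrib, Finset.sum_add_distrib] at h2
      have h3 := neg_abs_le (c A (2 * n m))
      push_cast
      linarith
    · exact intOn hA hA2 (by fun_prop)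
    · exact intOn hA hA2 (by fun_prop)
    · exact intOn hA hA2 (by fun_prop)
    · exact intOn hA hA2 (by fun_prop)

end

end Pool.Agent.H327R2.Lac
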