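import Pool.Agent.H327R2.Lac4

set_option autoImplicit false
open MeasureTheory Set Filter Finset
open scoped Topology Real

namespace Pool.Agent.H327R2.Lac

/-- ratio condition -/
def Had (n : ℕ → ℕ) (q : ℝ) : Prop :=
  (∀ k, 0 < n k) ∧ ∀ k, q * (n k : ℝ) ≤ (n (k + 1) : ℝ)

lemma Had.shift {n : ℕ → ℕ} {q : ℝ} (h : Had n q) (K : ℕ) : Had (fun k => n (K + k)) q :=
  ⟨fun k => h.1 _, fun k => h.2 _⟩

/-- if two indices `j < j'` in the same class mod `r`, then `n j' ≥ q^r n j`. -/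
lemma Had.far {n : ℕ → ℕ} {q : ℝ} (hq : 1 < q) (h : Had n q) {r j j' : ℕ}
    (hjj : j < j') (hmod : j % r = j' % r) : q ^ r * (n j : ℝ) ≤ n j' := by
  have hd : r ≤ j' - j := by
    have : r ∣ j' - j := (Nat.modEq_iff_dvd' hjj.le).1 hmod
    exact Nat.le_of_dvd (by omega) this
  have hg := growth hq h.2 j (j' - j)
  rw [Nat.add_sub_cancel' hjj.le] at hg
  have hn0 : (0 : ℝ) ≤ n j := Nat.cast_nonneg _
  have : q ^ r ≤ q ^ (j' - j) := pow_le_pow_right₀ hq.le hd
  nlinarith

lemma Had.ratio {n : ℕ → ℕ} {q : ℝ} (hq : 1 < q) (h : Had n q) {k j : ℕ}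
    (hkj : k < j) : q * (n k : ℝ) ≤ n j := by
  have h1 := h.2 k
  have h2 : n (k + 1) ≤ n j := (strictMono_n hq h.1 h.2).monotone hkj
  have h3 : (n (k + 1) : ℝ) ≤ n j := by exact_mod_cast h2
  linarith

lemma Had.injDiff {n : ℕ → ℕ} {q : ℝ} (hq : 1 < q) (h : Had n q) {r : ℕ}
    (hr : q / (q - 1) ≤ q ^ r) (m : ℕ) :
    Set.InjOn (fun p : (Σ _ : ℕ, ℕ) => (n p.1 - n p.2, p.1 % r)) (prs m : Set (Σ _ : ℕ, ℕ)) := by
  have hmono := strictMono_n hq h.1 h.2
  have key : ∀ j k j' k' : ℕ, k < j → k' < j' → n j - n k = n j' - n k' → j % r = j' % r →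
      ¬ j < j' := by
    intro j k j' k' hk hk' he hmod hlt
    have h1 := h.far hq hlt hmod
    have h2 := h.ratio hq hk'
    have h3 : n k ≤ n j := (hmono hk).le
    have h4 : n k' ≤ n j' := (hmono hk').le
    have h5 : ((n j : ℝ) - n k) = n j' - n k' := by
      rw [← Nat.cast_sub h3, ← Nat.cast_sub h4, he]
    have hkpos : (0 : ℝ) < n k := by exact_mod_cast h.1 k
    have hjpos : (0 : ℝ) < n j := by exact_mod_cast h.1 j
    have hq1 : 0 < q - 1 := by linarith
    -- n j > n j' (1 - 1/q)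
    have h6 : (q - 1) * (n j' : ℝ) < q * n j := by nlinarith
    have h7 : q / (q - 1) * (n j : ℝ) ≤ n j' := by nlinarith
    have h8 : q * (n j : ℝ) ≤ (q - 1) * n j' := by
      have : (q - 1) * (q / (q - 1) * (n j : ℝ)) ≤ (q - 1) * n j' := by gcongr
      have e : (q - 1) * (q / (q - 1) * (n j : ℝ)) = q * n j := by field_simp
      linarith
    linarith
  rintro ⟨j, k⟩ hp ⟨j', k'⟩ hp' heq
  simp only [prs, Finset.coe_sigma, Set.mem_sigma_iff, Finset.mem_coe, Finset.mem_range] at hp hp'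
  simp only [Prod.mk.injEq] at heq
  obtain ⟨h1, h2⟩ := heq
  have hj : j = j' := by
    rcases lt_trichotomy j j' with hlt | he | hgt
    · exact absurd hlt (key j k j' k' hp.2 hp'.2 h1 h2)
    · exact he
    · exact absurd hgt (key j' k' j k hp'.2 hp.2 h1.symm h2.symm)
  subst hj
  have h3 := hmono hp.2
  have h4 := hmono hp'.2
  have hk : n k = n k' := by omega
  have : k = k' := hmono.injective hk
  subst this
  rfl

lemma Had.injSum {n : ℕ → ℕ} {q : ℝ} (hq : 1 < q) (h : Had n q) {r : ℕ}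
    (hr : 2 ≤ q ^ r) (m : ℕ) :
    Set.InjOn (fun p : (Σ _ : ℕ, ℕ) => (n p.1 + n p.2, p.1 % r)) (prs m : Set (Σ _ : ℕ, ℕ)) := by
  have hmono := strictMono_n hq h.1 h.2
  have key : ∀ j k j' k' : ℕ, k < j → k' < j' → n j + n k = n j' + n k' → j % r = j' % r →
      ¬ j < j' := by
    intro j k j' k' hk hk' he hmod hlt
    have h1 := h.far hq hlt hmod
    have h3 : (n k : ℝ) < n j := by exact_mod_cast hmono hk
    have h5 : ((n j : ℝ) + n k) = n j' + n k' := by exact_mod_cast he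
    have hkpos : (0 : ℝ) < n k' := by exact_mod_cast h.1 k'
    have hjpos : (0 : ℝ) < n j := by exact_mod_cast h.1 j
    nlinarith
  rintro ⟨j, k⟩ hp ⟨j', k'⟩ hp' heq
  simp only [prs, Finset.coe_sigma, Set.mem_sigma_iff, Finset.mem_coe, Finset.mem_range] at hp hp'
  simp only [Prod.mk.injEq] at heq
  obtain ⟨h1, h2⟩ := heq
  have hj : j = j' := by
    rcases lt_trichotomy j j' with hlt | he | hgt
    · exact absurd hlt (key j k j' k' hp.2 hp'.2 h1 h2)
    · exact he
    · exact absurd hgt (key j' k' j k hp'.2 hp.2 h1.symm h2.symm)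
  subst hj
  have hk : n k = n k' := by omega
  have : k = k' := hmono.injective hk
  subst this
  rfl

/-- The key estimates on a set `A`. -/
lemma key_est {A : Set ℝ} (hA : MeasurableSet A) (hA2 : A ⊆ Set.Ioc 0 (2 * π)) {q : ℝ}
    (hq : 1 < q) {r : ℕ} (hr0 : 0 < r) (hr1 : q / (q - 1) ≤ q ^ r) (hr2 : 2 ≤ q ^ r)
    {δ : ℝ} (hδ : 0 < δ) :
    ∃ L : ℕ, ∀ n : ℕ → ℕ, Had n q → L ≤ n 0 → (L : ℝ) ≤ (q - 1) * n 0 → ∀ m : ℕ,
      ((m : ℝ) * volume.real A / 2 - 3 * m * δ ≤ ∫ x in A, P n (range m) x ^ 2) ∧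
      (∑ k ∈ range (m ^ 2), |c A (n k)| ≤ δ * m) := by
  have hrpos : (0 : ℝ) < r := by exact_mod_cast hr0
  obtain ⟨L, hL0, hL⟩ := tail hA hA2 (η := δ ^ 2 / r) (by positivity)
  refine ⟨L, fun n h hn0 hn1 m => ?_⟩
  have hmono := strictMono_n hq h.1 h.2
  have hη : (0 : ℝ) ≤ δ ^ 2 / r := by positivity
  have hr1' : (1 : ℝ) ≤ r := by exact_mod_cast hr0
  have hηle : δ ^ 2 / r ≤ δ ^ 2 := div_le_self (sq_nonneg _) hr1'
  have hrη : (r : ℝ) * (δ ^ 2 / r) = δ ^ 2 := by field_simp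
  have hnk : ∀ k, L ≤ n k := fun k => hn0.trans (hmono.monotone (Nat.zero_le k))
  -- sums along injective maps
  have hsingle : ∀ (M : ℕ) (φ : ℕ → ℕ), (∀ k, L ≤ φ k) → Function.Injective φ → ∀ Y : ℝ, 0 ≤ Y →
      (M : ℝ) * δ ^ 2 ≤ Y ^ 2 → ∑ k ∈ range M, |c A (φ k)| ≤ Y := by
    intro M φ hφ hinj Y hY hMY
    refine abs_sum_le (range M) φ hY (X := ((1 : ℕ) : ℝ) * (δ ^ 2 / r)) ?_ ?_
    · exact sum_img hη hL (range M) φ (fun _ => 0) (by simp) (fun p _ => hφ p)
        (fun a _ b _ hab => hinj (by simpa using hab))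
    · simp only [Finset.card_range, Nat.cast_one, one_mul]
      refine le_trans ?_ hMY
      gcongr
  constructor
  · have hb := int_P_sq hA hA2 n hmono m
    have h1 : ∑ k ∈ range m, |c A (2 * n k)| ≤ m * δ := by
      refine hsingle m (fun k => 2 * n k) (fun k => by have := hnk k; omega) ?_ _ (by positivity) ?_
      · intro a b hab
        exact hmono.injective (by simpa using hab)
      · have : (m : ℝ) ≤ (m : ℝ) ^ 2 := by
          rcases Nat.eq_zero_or_pos m with hm | hm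
          · subst hm; simp
          · have : (1 : ℝ) ≤ m := by exact_mod_cast hm
            nlinarith
        rw [mul_pow]
        gcongr
    have h2 : ∑ j ∈ range m, ∑ k ∈ range j, |c A (n j + n k)| ≤ m * δ := by
      rw [Finset.sum_sigma']
      refine abs_sum_le (prs m) (fun p => n p.1 + n p.2) (by positivity) (X := r * (δ ^ 2 / r)) ?_ ?_
      · refine sum_img hη hL (prs m) (fun p => n p.1 + n p.2) (fun p => p.1 % r)
          (fun p _ => Nat.mod_lt _ hr0) (fun p _ => by have := hnk p.1; omega) ?_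
        exact h.injSum hq hr2 m
      · rw [hrη, mul_pow]
        gcongr
        exact card_prs m
    have h3 : ∑ j ∈ range m, ∑ k ∈ range j, |c A (n j - n k)| ≤ m * δ := by
      rw [Finset.sum_sigma']
      refine abs_sum_le (prs m) (fun p => n p.1 - n p.2) (by positivity) (X := r * (δ ^ 2 / r)) ?_ ?_
      · refine sum_img hη hL (prs m) (fun p => n p.1 - n p.2) (fun p => p.1 % r)
          (fun p _ => Nat.mod_lt _ hr0) (fun p hp => ?_) ?_
        · simp only [prs, Finset.mem_sigma, Finset.mem_range] at hp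
          have e1 := h.ratio hq hp.2
          have e2 := hmono hp.2
          have e3 : (n 0 : ℝ) ≤ n p.2 := by exact_mod_cast hmono.monotone (Nat.zero_le p.2)
          have : (L : ℝ) ≤ ((n p.1 - n p.2 : ℕ) : ℝ) := by
            rw [Nat.cast_sub e2.le]
            nlinarith
          exact_mod_cast this
        · exact h.injDiff hq hr1 m
      · rw [hrη, mul_pow]
        gcongr
        exact card_prs m
    have hmd : (0 : ℝ) ≤ m * δ := by positivity
    linarith
  · refine hsingle (m ^ 2) n hnk hmono.injective _ (by positivity) ?_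
    push_cast
    rw [mul_pow]
    linarith [mul_comm ((m : ℝ) ^ 2) (δ ^ 2)]

end Pool.Agent.H327R2.Lac
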