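import Pool.Agent.H327R2.Lac5

set_option autoImplicit false
open MeasureTheory Set Filter Finset
open scoped Topology Real

namespace Pool.Agent.H327R2.Lac

lemma exists_r {q : ℝ} (hq : 1 < q) :
    ∃ r : ℕ, 0 < r ∧ q / (q - 1) ≤ q ^ r ∧ 2 ≤ q ^ r ∧ 4 ≤ q ^ r := by
  obtain ⟨r, hr⟩ := pow_unbounded_of_one_lt (max (q / (q - 1)) 4) hq
  have h1 : q / (q - 1) ≤ q ^ r := (le_max_left _ _).trans hr.le
  have h2 : 4 ≤ q ^ r := (le_max_right _ _).trans hr.le
  refine ⟨r, ?_, h1, by linarith, h2⟩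
  rcases Nat.eq_zero_or_pos r with h | h
  · subst h; norm_num at h2
  · exact h

/-- the set where the partial sums are bounded below (up to the sign `s`) from `K` on -/
def BB (n : ℕ → ℕ) (s : ℝ) (K : ℕ) (M : ℝ) : Set ℝ :=
  {x | x ∈ Set.Ioc 0 (2 * π) ∧ ∀ m, K ≤ m → M ≤ s * P n (range m) x}

lemma BB_meas (n : ℕ → ℕ) (s : ℝ) (K : ℕ) (M : ℝ) : MeasurableSet (BB n s K M) := by
  have : BB n s K M = Set.Ioc 0 (2 * π) ∩ ⋂ m : ℕ, ⋂ _ : K ≤ m, {x | M ≤ s * P n (range m) x} := by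
    ext x; simp [BB]
  rw [this]
  refine measurableSet_Ioc.inter (MeasurableSet.iInter fun m => MeasurableSet.iInter fun _ => ?_)
  exact (isClosed_le continuous_const (continuous_const.mul (P_cont n _))).measurableSet

lemma abs_P_le (n : ℕ → ℕ) (T : Finset ℕ) (x : ℝ) : |P n T x| ≤ T.card := by
  unfold P
  refine (Finset.abs_sum_le_sum_abs _ _).trans ?_
  refine (Finset.sum_le_sum (g := fun _ => (1 : ℝ)) fun k _ => Real.abs_cos_le_one _).trans ?_
  simp

lemma null_BB {n : ℕ → ℕ} {q : ℝ} (hq : 1 < q) (h : Had n q) {s : ℝ} (hs : s = 1 ∨ s = -1)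
    (K : ℕ) (M : ℝ) : volume (BB n s K M) = 0 := by
  by_contra hne
  set A := BB n s K M with hAdef
  have hA : MeasurableSet A := BB_meas n s K M
  have hA2 : A ⊆ Set.Ioc 0 (2 * π) := fun x hx => hx.1
  have hfin : volume A ≠ ⊤ := ((measure_mono hA2).trans_lt measure_Ioc_lt_top).ne
  set a := volume.real A with ha
  have hapos : 0 < a := ENNReal.toReal_pos hne hfin
  obtain ⟨r, hr0, hr1, hr2, hr4⟩ := exists_r hq
  have hpi := Real.pi_pos
  set C4 : ℝ := 3 * π * (r : ℝ) ^ 4 with hC4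
  have hC4pos : 0 < C4 := by
    have : (0 : ℝ) < r := by exact_mod_cast hr0
    positivity
  set lam : ℝ := 16 * C4 / a + 1 with hlam
  have hlam1 : 1 ≤ lam := by
    have : 0 ≤ 16 * C4 / a := by positivity
    linarith
  have hlam0 : 0 < lam := by linarith
  have hC4lam : C4 / lam ^ 2 ≤ a / 16 := by
    rw [div_le_iff₀ (by positivity)]
    have h1 : 16 * C4 ≤ a * lam := by
      rw [hlam, mul_add, mul_div_cancel₀ _ hapos.ne']
      nlinarith
    have h2 : a * lam ≤ a * lam ^ 2 := by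
      have : lam ≤ lam ^ 2 := by nlinarith
      gcongr
    linarith
  set δ : ℝ := min (a / 24) (a / (16 * lam)) with hδ
  have hδpos : 0 < δ := lt_min (by positivity) (by positivity)
  have hδ1 : 3 * δ ≤ a / 8 := by
    have : δ ≤ a / 24 := min_le_left _ _
    linarith
  have hδ2 : lam * δ ≤ a / 16 := by
    have : δ ≤ a / (16 * lam) := min_le_right _ _
    calc lam * δ ≤ lam * (a / (16 * lam)) := by gcongr
      _ = a / 16 := by field_simp
  obtain ⟨L, hL⟩ := key_est hA hA2 hq hr0 hr1 hr2 hδpos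
  have hmono := strictMono_n hq h.1 h.2
  -- choose K0
  obtain ⟨K1, hK1⟩ := exists_nat_ge ((L : ℝ) / (q - 1))
  set K0 : ℕ := K + L + K1 with hK0
  have hq1 : 0 < q - 1 := by linarith
  have hid : K0 ≤ n K0 := hmono.le_apply
  have hn0 : L ≤ n (K0 + 0) := by simp only [add_zero]; omega
  have hn1 : (L : ℝ) ≤ (q - 1) * n (K0 + 0) := by
    simp only [add_zero]
    have h1 : (K1 : ℝ) ≤ n K0 := by exact_mod_cast (by omega : K1 ≤ n K0)
    rw [div_le_iff₀ hq1] at hK1
    nlinarith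
  set n' : ℕ → ℕ := fun k => n (K0 + k) with hn'
  have h' : Had n' q := h.shift K0
  have hkey := hL n' h' hn0 hn1
  set B : ℝ := |M| + K0 with hB
  have hB0 : 0 ≤ B := by positivity
  -- choose N
  obtain ⟨N, hN⟩ := exists_nat_gt (8 * lam * B)
  have hNpos : (0 : ℝ) < N := lt_of_le_of_lt (by positivity) hN
  set U : ℝ → ℝ := P n' (range (N ^ 2)) with hU
  have hUc : Continuous U := P_cont _ _
  have hadd : ∀ x, P n (range (K0 + N ^ 2)) x = P n (range K0) x + U x := by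
    intro x
    simp only [hU, P, Finset.sum_range_add, hn']
  have habs : ∀ x ∈ A, |U x| ≤ s * U x + 2 * B := by
    intro x hx
    have h1 := hx.2 (K0 + N ^ 2) (by omega)
    rw [hadd] at h1
    have h2 := abs_P_le n (range K0) x
    simp only [Finset.card_range] at h2
    have h3 := abs_le.1 h2
    have h4 := neg_abs_le M
    rcases hs with rfl | rfl
    · rcases abs_cases (U x) with ⟨e, _⟩ | ⟨e, _⟩ <;> rw [e] <;> linarith
    · rcases abs_cases (U x) with ⟨e, _⟩ | ⟨e, _⟩ <;> rw [e] <;> linarith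
  have hI1 : ∫ x in A, |U x| ≤ δ * N + 2 * B * a := by
    calc ∫ x in A, |U x| ≤ ∫ x in A, (s * U x + 2 * B) := by
          apply setIntegral_mono_on (intOn hA hA2 (by fun_prop)) (intOn hA hA2 (by fun_prop)) hA
          exact habs
      _ = s * (∫ x in A, U x) + 2 * B * a := by
          rw [integral_add (intOn hA hA2 (by fun_prop)) (intOn hA hA2 (by fun_prop)),
            integral_const_mul]
          simp only [integral_const, smul_eq_mul, measureReal_restrict_apply_univ]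
          ring
      _ ≤ δ * N + 2 * B * a := by
          have h1 : |∫ x in A, U x| ≤ δ * N := by
            rw [hU, int_P hA hA2]
            exact (Finset.abs_sum_le_sum_abs _ _).trans (hkey N).2
          have h2 := abs_le.1 h1
          rcases hs with rfl | rfl <;> linarith
  have hI4 : ∫ x in A, U x ^ 4 ≤ C4 * ((N : ℝ) ^ 2) ^ 2 := by
    calc ∫ x in A, U x ^ 4 ≤ ∫ x in Set.Ioc 0 (2 * π), U x ^ 4 := by
          apply setIntegral_mono_set
          · exact ((hUc.pow 4).integrableOn_Icc).mono_set Set.Ioc_subset_Icc_self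
          · exact Filter.Eventually.of_forall fun x => by positivity
          · exact hA2.eventuallyLE
      _ = ∫ x in (0 : ℝ)..(2 * π), U x ^ 4 :=
          (intervalIntegral.integral_of_le (by positivity)).symm
      _ ≤ C4 * ((N ^ 2 : ℕ) : ℝ) ^ 2 := L4gen hq h'.1 h'.2 hr0 hr4 (N ^ 2)
      _ = C4 * ((N : ℝ) ^ 2) ^ 2 := by push_cast; ring
  have hpt : ∀ x, U x ^ 2 ≤ lam * N * |U x| + U x ^ 4 / (lam ^ 2 * (N : ℝ) ^ 2) := by
    intro x
    have hsq : U x ^ 2 = |U x| ^ 2 := (sq_abs _).symm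
    have hq4 : U x ^ 4 = |U x| ^ 4 := by
      rw [show U x ^ 4 = (U x ^ 2) ^ 2 by ring, hsq]; ring
    rw [hsq, hq4]
    set t := |U x| with ht
    have ht0 : 0 ≤ t := abs_nonneg _
    rcases le_or_gt t (lam * N) with hle | hgt
    · have : 0 ≤ t ^ 4 / (lam ^ 2 * (N : ℝ) ^ 2) := by positivity
      nlinarith
    · have h1 : t ^ 2 ≤ t ^ 4 / (lam ^ 2 * (N : ℝ) ^ 2) := by
        rw [le_div_iff₀ (by positivity)]
        have h2 : lam ^ 2 * (N : ℝ) ^ 2 ≤ t ^ 2 := by
          rw [← mul_pow]; gcongr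
        calc t ^ 2 * (lam ^ 2 * (N : ℝ) ^ 2) ≤ t ^ 2 * t ^ 2 := by gcongr
          _ = t ^ 4 := by ring
      have : 0 ≤ lam * N * t := by positivity
      linarith
  have hI2 : ∫ x in A, U x ^ 2 ≤ lam * N * (δ * N + 2 * B * a)
      + C4 * ((N : ℝ) ^ 2) ^ 2 / (lam ^ 2 * (N : ℝ) ^ 2) := by
    calc ∫ x in A, U x ^ 2
        ≤ ∫ x in A, (lam * N * |U x| + U x ^ 4 / (lam ^ 2 * (N : ℝ) ^ 2)) := by
          apply setIntegral_mono_on (intOn hA hA2 (by fun_prop)) (intOn hA hA2 (by fun_prop)) hA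
          intro x _; exact hpt x
      _ = lam * N * (∫ x in A, |U x|) + (∫ x in A, U x ^ 4) / (lam ^ 2 * (N : ℝ) ^ 2) := by
          rw [integral_add (intOn hA hA2 (by fun_prop)) (intOn hA hA2 (by fun_prop)),
            integral_const_mul, integral_div]
      _ ≤ _ := by gcongr
  have hlow := (hkey (N ^ 2)).1
  have hlow2 : ((N : ℝ) ^ 2) * a / 2 - 3 * (N : ℝ) ^ 2 * δ ≤ ∫ x in A, U x ^ 2 := by
    have := hlow
    push_cast at this
    exact this
  have hfinal := hlow2.trans hI2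
  have e1 : C4 * ((N : ℝ) ^ 2) ^ 2 / (lam ^ 2 * (N : ℝ) ^ 2) = (C4 / lam ^ 2) * (N : ℝ) ^ 2 := by
    field_simp
  rw [e1] at hfinal
  have hN2 : 0 < (N : ℝ) ^ 2 := by positivity
  have f1 : (C4 / lam ^ 2) * (N : ℝ) ^ 2 ≤ (a / 16) * (N : ℝ) ^ 2 := by gcongr
  have f2 : lam * N * (δ * N + 2 * B * a) = (lam * δ) * (N : ℝ) ^ 2 + 2 * lam * B * a * N := by ring
  have f3 : (lam * δ) * (N : ℝ) ^ 2 ≤ (a / 16) * (N : ℝ) ^ 2 := by gcongr
  have f4 : 3 * (N : ℝ) ^ 2 * δ ≤ (a / 8) * (N : ℝ) ^ 2 := by nlinarith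
  rw [f2] at hfinal
  have f5 : (a / 4) * (N : ℝ) ^ 2 ≤ 2 * lam * B * a * N := by nlinarith
  have f6 : (a / 4) * (N : ℝ) ≤ 2 * lam * B * a := by
    have : ((a / 4) * (N : ℝ)) * N ≤ (2 * lam * B * a) * N := by nlinarith
    exact le_of_mul_le_mul_right this hNpos
  have f7 : (N : ℝ) ≤ 8 * lam * B := by
    have : a * (N : ℝ) ≤ a * (8 * lam * B) := by nlinarith
    exact le_of_mul_le_mul_left this hapos
  linarith

end Pool.Agent.H327R2.Lac
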