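import Pool.Agent.H327R2.Lac6

set_option autoImplicit false
open MeasureTheory Set Filter Finset
open scoped Topology Real

namespace Pool.Agent.H327R2.Lac

lemma lip_P (n : ℕ → ℕ) (T : Finset ℕ) (z y : ℝ) :
    |P n T z - P n T y| ≤ (∑ i ∈ T, (n i : ℝ)) * |z - y| := by
  unfold P
  rw [← Finset.sum_sub_distrib, Finset.sum_mul]
  refine (Finset.abs_sum_le_sum_abs _ _).trans (Finset.sum_le_sum fun k _ => ?_)
  refine (Real.abs_cos_sub_cos_le _ _).trans ?_
  rw [← mul_sub, abs_mul, abs_of_nonneg (Nat.cast_nonneg _)]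

lemma sum_n_le {n : ℕ → ℕ} {q : ℝ} (hq : 1 < q) (h : Had n q) (k : ℕ) :
    (∑ i ∈ range (k + 1), (n i : ℝ)) ≤ q / (q - 1) * n k := by
  have hq1 : 0 < q - 1 := by linarith
  induction k with
  | zero =>
    simp only [zero_add, Finset.range_one, Finset.sum_singleton]
    have : 1 ≤ q / (q - 1) := by rw [le_div_iff₀ hq1]; linarith
    have h0 : (0 : ℝ) ≤ n 0 := Nat.cast_nonneg _
    nlinarith
  | succ k ih =>
    rw [Finset.sum_range_succ]
    have h1 := h.2 k
    have h2 : q / (q - 1) * (n k : ℝ) ≤ 1 / (q - 1) * n (k + 1) := by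
      have e : q / (q - 1) * (n k : ℝ) = 1 / (q - 1) * (q * n k) := by field_simp
      rw [e]
      gcongr
    have e2 : q / (q - 1) * (n (k + 1) : ℝ) = 1 / (q - 1) * n (k + 1) + n (k + 1) := by
      field_simp; ring
    rw [e2]
    linarith

/-- oscillation at a point around every level -/
def Osc (n : ℕ → ℕ) (x : ℝ) : Prop :=
  ∀ (K : ℕ) (ξ : ℝ), (∃ m, K ≤ m ∧ P n (range m) x < ξ) ∧ (∃ m, K ≤ m ∧ ξ < P n (range m) x)

lemma cross {n : ℕ → ℕ} {q : ℝ} (hq : 1 < q) (h : Had n q) {x : ℝ} (hx : Osc n x) (ξ : ℝ)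
    {ε : ℝ} (hε : 0 < ε) (K : ℕ) :
    ∃ k k' : ℕ, K ≤ k ∧ K ≤ k' ∧ ∃ y : ℝ, |y - x| ≤ π / n k ∧
      ∀ z, |z - y| ≤ (ε * (q - 1) / (2 * q)) / n k → |P n (range k') z - ξ| < ε := by
  have hq1 : 0 < q - 1 := by linarith
  have hq0 : 0 < q := by linarith
  obtain ⟨m1, hm1, hlt⟩ := (hx K ξ).1
  obtain ⟨m2, hm2, hgt⟩ := (hx m1 ξ).2
  obtain ⟨k, hk, hk1, hk2⟩ : ∃ k, m1 ≤ k ∧ P n (range k) x < ξ ∧ ξ ≤ P n (range (k + 1)) x := by
    by_contra hcon
    push Not at hcon
    have : ∀ k, m1 ≤ k → P n (range k) x < ξ := by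
      intro k hk
      induction k, hk using Nat.le_induction with
      | base => exact hlt
      | succ k hk ih => exact hcon k hk ih
    exact absurd (this m2 hm2) (not_lt.2 hgt.le)
  have hN : (0 : ℝ) < n k := by exact_mod_cast h.1 k
  have hpi := Real.pi_pos
  have hsucc : ∀ z, P n (range (k + 1)) z = P n (range k) z + Real.cos ((n k : ℝ) * z) := by
    intro z; unfold P; rw [Finset.sum_range_succ]
  have hcos : 0 < Real.cos ((n k : ℝ) * x) := by
    have := hsucc x; linarith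
  set y : ℝ := x + π / n k with hy
  have hxy : x ≤ y := by
    have : 0 < π / n k := by positivity
    linarith
  have hcy : Real.cos ((n k : ℝ) * y) = - Real.cos ((n k : ℝ) * x) := by
    have : (n k : ℝ) * y = (n k : ℝ) * x + π := by
      rw [hy]; field_simp
    rw [this, Real.cos_add_pi]
  have hSy : P n (range (k + 1)) y = P n (range k) y - Real.cos ((n k : ℝ) * x) := by
    rw [hsucc, hcy]; ring
  -- a zero
  have hzero : ∃ k', (k' = k ∨ k' = k + 1) ∧ ∃ y0 ∈ Set.Icc x y, P n (range k') y0 = ξ := by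
    rcases le_or_gt (P n (range k) y) ξ with hle | hgt'
    · refine ⟨k + 1, Or.inr rfl, ?_⟩
      have hmem : ξ ∈ Set.Icc (P n (range (k + 1)) y) (P n (range (k + 1)) x) :=
        ⟨by rw [hSy]; linarith, hk2⟩
      obtain ⟨y0, hy0, he⟩ := intermediate_value_Icc' hxy (P_cont n (range (k + 1))).continuousOn hmem
      exact ⟨y0, hy0, he⟩
    · refine ⟨k, Or.inl rfl, ?_⟩
      have hmem : ξ ∈ Set.Icc (P n (range k) x) (P n (range k) y) := ⟨hk1.le, hgt'.le⟩
      obtain ⟨y0, hy0, he⟩ := intermediate_value_Icc hxy (P_cont n (range k)).continuousOn hmem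
      exact ⟨y0, hy0, he⟩
  obtain ⟨k', hk', y0, hy0, he⟩ := hzero
  have hsum : (∑ i ∈ range k', (n i : ℝ)) ≤ q / (q - 1) * n k := by
    refine le_trans ?_ (sum_n_le hq h k)
    refine Finset.sum_le_sum_of_subset_of_nonneg ?_ fun i _ _ => Nat.cast_nonneg _
    intro i hi
    simp only [Finset.mem_range] at hi ⊢
    omega
  refine ⟨k, k', hm1.trans hk, by omega, y0, ?_, ?_⟩
  · rw [abs_of_nonneg (by linarith [hy0.1])]
    have := hy0.2
    rw [hy] at this
    linarith
  · intro z hz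
    have h1 := lip_P n (range k') z y0
    rw [he] at h1
    have h2 : (∑ i ∈ range k', (n i : ℝ)) * |z - y0|
        ≤ (q / (q - 1) * n k) * ((ε * (q - 1) / (2 * q)) / n k) := by
      gcongr
    have h3 : (q / (q - 1) * n k) * ((ε * (q - 1) / (2 * q)) / n k) = ε / 2 := by
      field_simp
    linarith

/-- the set avoiding the level `ξ` by `ε` from `K` on -/
def Av (n : ℕ → ℕ) (ξ ε : ℝ) (K : ℕ) : Set ℝ :=
  {x | ∀ k, K ≤ k → ε ≤ |P n (range k) x - ξ|}

lemma not_density {n : ℕ → ℕ} {q : ℝ} (hq : 1 < q) (h : Had n q) {x : ℝ} (hx : Osc n x) (ξ : ℝ)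
    {ε : ℝ} (hε : 0 < ε) (K : ℕ)
    (hd : Tendsto (fun r => volume (Av n ξ ε K ∩ Metric.closedBall x r) /
      volume (Metric.closedBall x r)) (𝓝[>] 0) (𝓝 1)) : False := by
  have hq1 : 0 < q - 1 := by linarith
  have hq0 : 0 < q := by linarith
  have hpi := Real.pi_pos
  set δ : ℝ := ε * (q - 1) / (2 * q) with hδ
  have hδ0 : 0 < δ := by positivity
  have hθ : ENNReal.ofReal (π / (π + δ)) < 1 := by
    rw [ENNReal.ofReal_lt_one, div_lt_one (by positivity)]
    linarith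
  have hev := hd.eventually (lt_mem_nhds hθ)
  obtain ⟨ρ, hρ, hsub⟩ := mem_nhdsGT_iff_exists_Ioo_subset.1 hev
  have hρ0 : 0 < ρ := hρ
  have hmono := strictMono_n hq h.1 h.2
  obtain ⟨K1, hK1⟩ := exists_nat_gt ((π + δ) / ρ)
  obtain ⟨k, k', hk, hk', y, hy, hz⟩ := cross hq h hx ξ hε (max K K1)
  have hNpos : (0 : ℝ) < n k := by exact_mod_cast h.1 k
  have hNbig : (π + δ) / ρ < n k := by
    refine hK1.trans_le ?_
    have : K1 ≤ n k := ((le_max_right K K1).trans hk).trans hmono.le_apply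
    exact_mod_cast this
  set r : ℝ := (π + δ) / n k with hr
  have hr0 : 0 < r := by positivity
  have hrρ : r < ρ := by
    rw [hr, div_lt_iff₀ hNpos]
    rw [div_lt_iff₀ hρ0] at hNbig
    linarith
  have hratio : ENNReal.ofReal (π / (π + δ)) < volume (Av n ξ ε K ∩ Metric.closedBall x r) /
      volume (Metric.closedBall x r) := hsub ⟨hr0, hrρ⟩
  have hball : Metric.closedBall y (δ / n k) ⊆ Metric.closedBall x r := by
    intro z hz'
    rw [Metric.mem_closedBall, Real.dist_eq] at hz' ⊢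
    have : |z - x| ≤ |z - y| + |y - x| := abs_sub_le z y x
    have e : r = δ / n k + π / n k := by rw [hr]; ring
    linarith
  have hsubset : Av n ξ ε K ∩ Metric.closedBall x r ⊆
      Metric.closedBall x r \ Metric.closedBall y (δ / n k) := by
    rintro z ⟨hzA, hzB⟩
    refine ⟨hzB, fun hzy => ?_⟩
    rw [Metric.mem_closedBall, Real.dist_eq] at hzy
    have h1 := hz z hzy
    have h2 := hzA k' ((le_max_left K K1).trans hk')
    linarith
  have hm : volume (Av n ξ ε K ∩ Metric.closedBall x r) ≤ ENNReal.ofReal (2 * (π / n k)) := by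
    refine (measure_mono hsubset).trans ?_
    rw [measure_sdiff hball measurableSet_closedBall.nullMeasurableSet (measure_closedBall_lt_top).ne,
      Real.volume_closedBall, Real.volume_closedBall, ← ENNReal.ofReal_sub _ (by positivity)]
    apply ENNReal.ofReal_le_ofReal
    rw [hr]
    apply le_of_eq
    ring
  have hcb : volume (Metric.closedBall x r) = ENNReal.ofReal (2 * r) := Real.volume_closedBall x r
  have hle : volume (Av n ξ ε K ∩ Metric.closedBall x r) / volume (Metric.closedBall x r)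
      ≤ ENNReal.ofReal (π / (π + δ)) := by
    rw [hcb]
    refine (ENNReal.div_le_div_right hm _).trans ?_
    rw [← ENNReal.ofReal_div_of_pos (by positivity)]
    apply ENNReal.ofReal_le_ofReal
    rw [hr]
    apply le_of_eq
    field_simp
  exact absurd hratio (not_lt.2 hle)

lemma ae_osc {n : ℕ → ℕ} {q : ℝ} (hq : 1 < q) (h : Had n q) :
    ∀ᵐ x : ℝ, x ∈ Set.Ioc 0 (2 * π) → Osc n x := by
  have h1 : ∀ᵐ x : ℝ, ∀ K : ℕ, ∀ M : ℤ, x ∉ BB n 1 K M ∧ x ∉ BB n (-1) K M := by
    rw [ae_all_iff]; intro K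
    rw [ae_all_iff]; intro M
    filter_upwards [measure_eq_zero_iff_ae_notMem.1 (null_BB hq h (Or.inl rfl) K M),
      measure_eq_zero_iff_ae_notMem.1 (null_BB hq h (Or.inr rfl) K M)] with x a b
    exact ⟨a, b⟩
  filter_upwards [h1] with x hx hxI
  intro K ξ
  constructor
  · obtain ⟨M, hM⟩ := exists_int_lt ξ
    have := (hx K M).1
    simp only [BB, Set.mem_setOf_eq, not_and, not_forall, not_le] at this
    obtain ⟨m, hm, hlt⟩ := this hxI
    exact ⟨m, hm, by linarith⟩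
  · obtain ⟨M, hM⟩ := exists_int_lt (-ξ)
    have := (hx K M).2
    simp only [BB, Set.mem_setOf_eq, not_and, not_forall, not_le] at this
    obtain ⟨m, hm, hlt⟩ := this hxI
    exact ⟨m, hm, by linarith⟩

lemma ae_notAv {n : ℕ → ℕ} {q : ℝ} (hq : 1 < q) (h : Had n q) (ξ : ℝ) {ε : ℝ} (hε : 0 < ε)
    (K : ℕ) : ∀ᵐ x : ℝ, Osc n x → x ∉ Av n ξ ε K := by
  have hmeas : MeasurableSet (Av n ξ ε K) := by
    have : Av n ξ ε K = ⋂ k : ℕ, ⋂ _ : K ≤ k, {x | ε ≤ |P n (range k) x - ξ|} := by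
      ext x; simp [Av]
    rw [this]
    refine MeasurableSet.iInter fun k => MeasurableSet.iInter fun _ => ?_
    exact (isClosed_le continuous_const
      (((P_cont n _).sub continuous_const).abs)).measurableSet
  have hd := Besicovitch.ae_tendsto_measure_inter_div (volume : Measure ℝ) (Av n ξ ε K)
  rw [ae_restrict_iff' hmeas] at hd
  filter_upwards [hd] with x hx hO hA
  exact not_density hq h hO ξ hε K (hx hA)

theorem main {n : ℕ → ℕ} {q : ℝ} (hq : 1 < q) (h : Had n q) :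
    ∀ᵐ x : ℝ, x ∈ Set.Ioc 0 (2 * π) → ∀ ξ ε : ℝ, 0 < ε →
      ∃ᶠ m in atTop, |P n (range m) x - ξ| < ε := by
  have h1 : ∀ᵐ x : ℝ, ∀ (a : ℚ) (j : ℕ) (K : ℕ), Osc n x → x ∉ Av n a (1 / ((j : ℝ) + 1)) K := by
    rw [ae_all_iff]; intro a
    rw [ae_all_iff]; intro j
    rw [ae_all_iff]; intro K
    exact ae_notAv hq h a (by positivity) K
  filter_upwards [h1, ae_osc hq h] with x hx hO hxI ξ ε hε
  have hOx := hO hxI
  rw [frequently_atTop]
  intro K
  obtain ⟨j, hj⟩ := exists_nat_one_div_lt (show 0 < ε / 2 by positivity)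
  obtain ⟨a, ha1, ha2⟩ := exists_rat_btwn (show ξ < ξ + ε / 2 by linarith)
  have := hx a j K hOx
  simp only [Av, Set.mem_setOf_eq, not_forall, not_le] at this
  obtain ⟨k, hk, hlt⟩ := this
  refine ⟨k, hk, ?_⟩
  have h3 : |P n (range k) x - ξ| ≤ |P n (range k) x - a| + |(a : ℝ) - ξ| := abs_sub_le _ _ _
  have h4 : |(a : ℝ) - ξ| < ε / 2 := by
    rw [abs_of_pos (by linarith)]; linarith
  linarith

end Pool.Agent.H327R2.Lac
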